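import Mathlib
import Pool.Agent.Y114.MU.Irr
import Pool.Agent.Y114.MU.SumTate

/-!
# Direct sums of systems with maximally unipotent monodromy
-/

set_option autoImplicit false
set_option linter.unusedSectionVars false
set_option linter.unusedVariables false

namespace Pool.Agent.N144.MS

open NumberField IsDedekindDomain Polynomial Module Pool.Agent.Y114.TF Pool.Agent.Y114.GF
  Pool.Agent.Y114.MU
open Pool.Agent.W569.FM Pool.Agent.W571.FM

section nil

variable {k V : Type*} [Field k] [AddCommGroup V] [Module k V]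

/-- `(1 + N) ^ e - 1` is nilpotent. -/
theorem pow_nil {A : End k V} (h : IsNilpotent (A - 1)) (e : ℕ) : IsNilpotent (A ^ e - 1) := by
  have h1 : A ^ e - 1 = (A - 1) * ∑ i ∈ Finset.range e, A ^ i := (mul_geom_sum A e).symm
  rw [h1]
  refine Commute.isNilpotent_mul_right (Commute.sum_right _ _ _ fun i _ => ?_) h
  exact (Commute.sub_left (Commute.refl A) (Commute.one_left A)).pow_right i

theorem pow_zero_of {A : End k V} {m : ℕ} (h : (A - 1) ^ m = 0) (e : ℕ) : (A ^ e - 1) ^ m = 0 := by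
  have h1 : A ^ e - 1 = (A - 1) * ∑ i ∈ Finset.range e, A ^ i := (mul_geom_sum A e).symm
  have h2 : Commute (A - 1) (∑ i ∈ Finset.range e, A ^ i) := Commute.sum_right _ _ _ fun i _ =>
    (Commute.sub_left (Commute.refl A) (Commute.one_left A)).pow_right i
  rw [h1, h2.mul_pow, h, zero_mul]

theorem pow_ne [CharZero k] {A : End k V} (hA : IsNilpotent (A - 1)) {m : ℕ}
    (h : (A - 1) ^ m ≠ 0) {e : ℕ} (he : 0 < e) : (A ^ e - 1) ^ m ≠ 0 := by
  have h1 : A ^ e - 1 = (A - 1) * ∑ i ∈ Finset.range e, A ^ i := (mul_geom_sum A e).symm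
  have h2 : Commute (A - 1) (∑ i ∈ Finset.range e, A ^ i) := Commute.sum_right _ _ _ fun i _ =>
    (Commute.sub_left (Commute.refl A) (Commute.one_left A)).pow_right i
  have h3 : ∀ i, A ^ i = 1 + (A - 1) * ∑ j ∈ Finset.range i, A ^ j := by
    intro i
    rw [mul_geom_sum]
    abel
  have h4 : ∑ i ∈ Finset.range e, A ^ i =
      (e : End k V) + (A - 1) * ∑ i ∈ Finset.range e, ∑ j ∈ Finset.range i, A ^ j := by
    rw [Finset.sum_congr rfl (fun i _ => h3 i), Finset.sum_add_distrib, Finset.mul_sum]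
    simp
  have h5 : IsUnit (∑ i ∈ Finset.range e, A ^ i) := by
    rw [h4]
    have hu : IsUnit (e : End k V) := by
      have : (e : End k V) = algebraMap k (End k V) (e : k) := by simp
      rw [this]
      exact (IsUnit.mk0 _ (Nat.cast_ne_zero.2 he.ne')).map _
    have hn : IsNilpotent ((A - 1) * ∑ i ∈ Finset.range e, ∑ j ∈ Finset.range i, A ^ j) := by
      refine Commute.isNilpotent_mul_right (Commute.sum_right _ _ _ fun i _ => 
        Commute.sum_right _ _ _ fun j _ => ?_) hA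
      exact (Commute.sub_left (Commute.refl A) (Commute.one_left A)).pow_right j
    exact hn.isUnit_add_left_of_commute hu (Nat.cast_commute _ _).symm
  intro h6
  apply h
  rw [h1, h2.mul_pow] at h6
  exact (IsUnit.mul_left_eq_zero (h5.pow m)).1 h6

end nil

variable {F : Type} [Field F] [NumberField F] {ι : Type} [Fintype ι] [DecidableEq ι] {n : ι → ℕ}

theorem even_dim (R : Realizations n Gal(AlgebraicClosure F/F)) (ℓ : ℕ) [Fact ℓ.Prime] (i : ι) :
    Even (n i) := by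
  have h := Pool.Agent.Y114.GF.even_of_alt (R.ω ℓ i) (R.alt ℓ i) (R.nondeg ℓ i)
  simpa using h

theorem main (R : Realizations n Gal(AlgebraicClosure F/F)) (w : ℕ) (hR : IsSystem R w)
    (ℓ : ℕ) (hℓ : ℓ.Prime) (P : HeightOneSpectrum (𝓞 F) → ι → ℚ[X])
    (T : Set ℕ) (hT3 : 3 ≤ T.encard) (hT : ∀ p ∈ T, p.Prime ∧ p ≠ ℓ ∧ UnramifiedIn F p)
    (hgood : ∀ p ∈ T, ∀ v, Above v p → GoodAt R w v (P v)) (hn : ∀ i, 0 < n i)
    (hdeg : ∀ i, ∃ p : ℕ, (p.Prime ∧ p ≠ ℓ ∧ UnramifiedIn F p) ∧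
      (∃ v, Above v p ∧ MaxUnipotentAt R i v ∧ DistinguishedAt R i v) ∧
      ∀ v, Above v p → MaxUnipotentAt R i v ∨ GoodFor R w i v)
    (hind : ∀ i, 4 ≤ n i → ∃ v P₀, ¬ Above v ℓ ∧ GoodAt R w v P₀ ∧ ThreeIndependent (P₀ i)) :
    R.TateAt ℓ := by
  classical
  have hℓ' : Fact ℓ.Prime := ⟨hℓ⟩
  refine ⟨hℓ', ?_⟩
  have hev : ∀ i, Even (n i) := fun i => even_dim R ℓ i
  have h2 : ∀ i, ∃ r, n i = r + 1 ∧ Odd r := by
    intro i
    obtain ⟨a, ha⟩ := hev i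
    have := hn i
    exact ⟨n i - 1, by omega, ⟨a - 1, by omega⟩⟩
  choose r hr hodd using h2
  -- the elements of the inertia groups
  have hτ : ∀ i, ∃ τ : Gal(AlgebraicClosure F/F), R.χ ℓ τ = 1 ∧
      (∀ j, IsNilpotent (R.ρ ℓ j τ - 1)) ∧ (R.ρ ℓ i τ - 1) ^ r i ≠ 0 ∧
      ∀ j, i ≠ j → r j = r i → (R.ρ ℓ j τ - 1) ^ r j = 0 := by
    intro i
    obtain ⟨p, ⟨hp, hpℓ, hpu⟩, ⟨v, hv, hmu, hdi⟩, -⟩ := hdeg i
    have hvℓ : ¬ Above v ℓ := not_above_of_ne hp hℓ hpℓ hv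
    obtain ⟨Q, σ, hQ, hQv, hσ⟩ := frob_cm v
    obtain ⟨hnilp, τ, hτ, hτne, -⟩ := hmu ℓ hvℓ Q ⟨hQ.isPrime, hQv⟩
    have hchi := (char_inertia R hR hQ.isPrime hQv hvℓ hτ hσ).2
    have he : ∀ j, ∃ e : ℕ, 0 < e ∧ IsNilpotent (R.ρ ℓ j (τ ^ e) - 1) ∧
        (i ≠ j → n j = n i → (R.ρ ℓ j (τ ^ e) - 1) ^ (n j - 1) = 0) := by
      intro j
      by_cases hj : j = i
      · subst hj
        exact ⟨1, Nat.one_pos, by rw [pow_one]; exact hnilp τ hτ, fun h => absurd rfl h⟩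
      · obtain ⟨e, he, h1, h2⟩ := hdi j hj ℓ hvℓ Q ⟨hQ.isPrime, hQv⟩ τ hτ
        exact ⟨e, he, h1, fun _ h => h2 h⟩
    choose e he0 he1 he2 using he
    refine ⟨τ ^ (∏ j, e j), by rw [map_pow, hchi, one_pow], fun j => ?_, ?_, fun j hij hrj => ?_⟩
    · rw [← Finset.mul_prod_erase Finset.univ e (Finset.mem_univ j), pow_mul, map_pow]
      exact pow_nil (he1 j) _
    · rw [map_pow]
      refine pow_ne (hnilp τ hτ) ?_ (Finset.prod_pos fun j _ => he0 j)
      have h3 : n i - 1 = r i := by rw [hr i]; rfl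
      rw [← h3]
      exact hτne
    · rw [← Finset.mul_prod_erase Finset.univ e (Finset.mem_univ j), pow_mul, map_pow]
      refine pow_zero_of ?_ _
      have h3 : n j - 1 = r j := by rw [hr j]; rfl
      rw [← h3]
      exact he2 j hij (by rw [hr i, hr j, hrj])
  choose τ hτχ hτn hτne hτz using hτ
  refine sum_tate (R.ρ ℓ) (R.χ ℓ) (R.ω ℓ) r (fun i => by simp [hr i]) hodd (R.alt ℓ) (R.nondeg ℓ)
    (R.sim ℓ) (fun i U hU => ?_) τ hτχ hτn hτne hτz fun i hi => ?_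
  · obtain ⟨p, hp, ⟨v, hv, hmu, -⟩, hall⟩ := hdeg i
    exact irreducible_of_mum R hR T hT3 hT hgood i hp hv hmu hall (hn i) U hU
  · obtain ⟨v, P₀, hvℓ, hg, hthree⟩ := hind i (by rw [hr i]; omega)
    obtain ⟨γ, hγ⟩ := exists_frobenius (P := fun _ => P₀) R hR v hg
    exact ⟨γ, P₀ i, (hγ ℓ hvℓ).2 i, hthree⟩

end Pool.Agent.N144.MS
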